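import Pool.Agent.Helper19.TS.BsNum
import Pool.Agent.Helper70.OL.Small
import Pool.Agent.Helper78.TS.PieceC
import Pool.Agent.Helper70.OL.Swap
import Pool.Agent.Helper70.OS.POne
import Pool.Agent.Helper70.OS.PChy
import Pool.Agent.Helper70.OS.PChx
import Pool.Agent.Helper70.OS.PCpy
import Pool.Agent.Helper70.OS.PCpx
import Pool.Agent.Helper70.OS.ROne
import Pool.Agent.Helper70.OS.RChy
import Pool.Agent.Helper70.OS.RChx
import Pool.Agent.Helper70.OS.RCpy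
import Pool.Agent.Helper70.OS.RCpx
import Pool.Agent.Helper47.FC.Fin
import Pool.Agent.Helper83.Cert.RE

/-!
# The values of the gains of the columns with two rows
-/

set_option autoImplicit false
set_option maxRecDepth 100000
set_option linter.all false

namespace Pool.Agent.Helper70.OS

open Pool.Agent.Helper83.Cert (finE)

open Pool.Agent.Helper83.Cert Pool.Agent.Helper47.FC Pool.Agent.Helper74.TS Pool.Agent.Helper83.TS Pool.Agent.Helper36.CK Pool.Agent.Helper36.TS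
open Pool.Agent.Helper11.TS.OL1Bs Pool.Agent.Helper19.TS.Bs Pool.Agent.Helper78.TS Pool.Agent.Helper70.OL

theorem p_top  :
    ∀ w : ℝ, 0 ≤ w → w ≤ 1 →
    fp w ≤ 7479 / 10000 := by
  intro w h1 h2
  exact finE (yv_nonneg h1 (le_refl 0) (le_refl 0) (le_refl 0) (le_refl 0) (le_refl 0) (le_refl 0) (le_refl 0) (le_refl 0)) (.A (.A (.A (.D (.n 21) 9998) (.M (.D (.n 709) 9998) .v0)) (.M (.D (.n 527) 2498) (.P .v0))) (.M (.D (.n 305) 9998) (.Q .v0))) (.D (.n 7477) 9998)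
    [.v0, (.S .o .v0)]
    ⟨h1, Pool.Agent.Helper83.Cert.sn h2, trivial⟩
    9 3 0x1042000000000000000000000bff00108000000000000000000017aa00002000000000000000000007a6f 0 0x0 (by decide +kernel)

theorem p_ty  :
    ∀ w c : ℝ, 0 ≤ w → w ≤ 1 → 0 ≤ c → c ≤ 1 →
    Bpr w c + fr c ≤ 7479 / 10000 := by
  intro w c h1 h2 h3 h4
  exact finE (yv_nonneg h1 h3 (le_refl 0) (le_refl 0) (le_refl 0) (le_refl 0) (le_refl 0) (le_refl 0) (le_refl 0)) (.A (.S (.S (.A (.A (.S (.A (.A (.A (.D (.n 5) 2498) (.M (.D (.n 19) 398) .v0)) (.M (.D (.n 2529) 9998) (.P .v0))) (.M (.D (.n 6) 623) (.Q .v0))) (.M (.D (.n 21) 1998) .v1)) (.M (.D (.n 35) 2498) (.P .v1))) (.M (.D (.n 1825) 9998) (.M .v0 .v1))) (.M (.D (.n 591) 1998) (.M (.P .v0) .v1))) (.M (.D (.n 114) 623) (.M .v0 (.P .v1)))) (.S (.A (.A (.D (.n 41) 9998) (.M (.D (.n 2057) 9998) .v1)) (.M (.D (.n 2867) 9998) (.P .v1))) (.M (.D (.n 869) 9998) (.Q .v1)))) (.D (.n 7477) 9998)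
    [.v0, (.S .o .v0), .v1, (.S .o .v1)]
    ⟨h1, Pool.Agent.Helper83.Cert.sn h2, h3, Pool.Agent.Helper83.Cert.sn h4, trivial⟩
    9 9 0x40c400000000000000000000220510110000000000000000000005ab810440000000000000000000014281030800000000000000000000c74440420000000000000000000127c0041080000000000000000000002084082000000000000000000009fc7082080000000000000000000011fc00820000000000000000000002f3 0 0x0 (by decide +kernel)

theorem p_tx  :
    ∀ w c : ℝ, 0 ≤ w → w ≤ 1 → 0 ≤ c → c ≤ 1 →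
    Bps w c + fs c ≤ 7479 / 10000 := by
  intro w c h1 h2 h3 h4
  exact finE (yv_nonneg h1 h3 (le_refl 0) (le_refl 0) (le_refl 0) (le_refl 0) (le_refl 0) (le_refl 0) (le_refl 0)) (.A (.S (.S (.S (.S (.A (.A (.A (.A (.D (.n 19) 9998) (.M (.D (.n 1981) 9998) .v0)) (.M (.D (.n 59) 498) (.P .v0))) (.M (.D (.n 45) 9998) (.Q .v0))) (.M (.D (.n 199) 1998) .v1)) (.M (.D (.n 491) 4998) (.P .v1))) (.M (.D (.n 569) 4998) (.M .v0 .v1))) (.M (.D (.n 159) 1248) (.M (.P .v0) .v1))) (.M (.D (.n 655) 9998) (.M .v0 (.P .v1)))) (.A (.A (.A (.D (.n 3335) 9998) (.M (.D (.n 1679) 9998) .v1)) (.M (.D (.n 251) 2498) (.P .v1))) (.M (.D (.n 151) 1248) (.Q .v1)))) (.D (.n 7477) 9998)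
    [.v0, (.S .o .v0), .v1, (.S .o .v1)]
    ⟨h1, Pool.Agent.Helper83.Cert.sn h2, h3, Pool.Agent.Helper83.Cert.sn h4, trivial⟩
    19 9 0x30c4000000000000000000005fa20c11000000000000000000000b96810440000000000000000000042600820800000000000000000000033c10420000000000000000000002df0c4080000000000000000000186b0210200000000000000000001338604408000000000000000000076a100002000000000000000000000bf9 0 0x0 (by decide +kernel)

theorem mo_p {x y z : ℝ} (x0 : 0 ≤ x) (x1 : x ≤ 3 / 5) (y0 : 0 ≤ y) (y1 : y ≤ 3 / 5)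
    (z0 : 0 ≤ z) (z1 : z ≤ 3 / 5) (h : x + y + z ≤ 9 / 10) :
    ModesC (ns z) (nr y) (krs y z) z y (Wp0 y z) (Wp y z) 0 (gg x y z) 0
      (fun _ _ _ _ _ => True) flA fp fs fr Bps Bpr Bsr Brs := by
  have g0 : z + y ≤ 9 / 10 := by linarith
  have hg : 7479 / 10000 ≤ gg x y z := by
    unfold gg
    linarith
  have hg2 : gg 0 y z ≤ gg x y z := by
    unfold gg
    linarith
  refine ⟨fun w A B c => ?_, fun w A B c => ?_, fun w A B c A1 => ?_, fun w A B c B1 => ?_,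
    fun w A B t c A1 t0 t1 => ?_, fun w A B t c B1 t0 t1 => ?_, fun w A B t c t0 t1 => ?_,
    fun w A B t c t0 t1 => ?_⟩
  · exact (p_one_bd z0 z1 y0 y1 g0 c).mono (by linarith)
  · have e := p_top w c.w0.le c.w1
    exact (p_one_bd z0 z1 y0 y1 g0 c).mono (by linarith)
  · have e := p_ty w (1 - A) c.w0.le c.w1 (by linarith) (by linarith [c.A0])
    exact (p_cpy_bd z0 z1 y0 y1 g0 c A1 (by linarith : (0 : ℝ) ≤ 1 - A) le_rfl).mono (by linarith)
  · have e := p_tx w (1 - B) c.w0.le c.w1 (by linarith) (by linarith [c.B0])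
    exact (p_cpx_bd z0 z1 y0 y1 g0 c B1 (by linarith : (0 : ℝ) ≤ 1 - B) le_rfl).mono (by linarith)
  · exact (p_chy_bd z0 z1 y0 y1 g0 c A1 (by linarith) t0 t1).mono (by linarith)
  · exact (p_chx_bd z0 z1 y0 y1 g0 c (by linarith) B1 t0 t1).mono (by linarith)
  · exact (p_cpy_bd z0 z1 y0 y1 g0 c (by linarith) t0 t1).mono (by linarith)
  · exact (p_cpx_bd z0 z1 y0 y1 g0 c (by linarith) t0 t1).mono (by linarith)

theorem mo_p_sw {x y z : ℝ} (x0 : 0 ≤ x) (x1 : x ≤ 3 / 5) (y0 : 0 ≤ y) (y1 : y ≤ 3 / 5)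
    (z0 : 0 ≤ z) (z1 : z ≤ 3 / 5) (h : x + y + z ≤ 9 / 10) :
    ModesC (nr y) (ns z) (krs y z) y z (Wp0 y z) (Wp y z) 0 (gg x y z) 0
      (fun _ _ _ _ _ => True) flA fp fr fs Bpr Bps Brs Bsr :=
  modes_swap (mo_p x0 x1 y0 y1 z0 z1 h)

theorem r_top  :
    ∀ w : ℝ, 0 ≤ w → w ≤ 1 →
    fr w ≤ 7479 / 10000 := by
  intro w h1 h2
  exact finE (yv_nonneg h1 (le_refl 0) (le_refl 0) (le_refl 0) (le_refl 0) (le_refl 0) (le_refl 0) (le_refl 0) (le_refl 0)) (.S (.A (.A (.D (.n 41) 9998) (.M (.D (.n 2057) 9998) .v0)) (.M (.D (.n 2867) 9998) (.P .v0))) (.M (.D (.n 869) 9998) (.Q .v0))) (.D (.n 7477) 9998)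
    [.v0, (.S .o .v0)]
    ⟨h1, Pool.Agent.Helper83.Cert.sn h2, trivial⟩
    9 3 0x2042000000000000000000004e0e0410800000000000000000000b0240002000000000000000000009e7d 0 0x0 (by decide +kernel)

theorem r_ty  :
    ∀ w c : ℝ, 0 ≤ w → w ≤ 1 → 0 ≤ c → c ≤ 1 →
    Brs w c + fs c ≤ 7479 / 10000 := by
  intro w c h1 h2 h3 h4
  exact finE (yv_nonneg h1 h3 (le_refl 0) (le_refl 0) (le_refl 0) (le_refl 0) (le_refl 0) (le_refl 0) (le_refl 0)) (.A (.S (.S (.S (.A (.S (.A (.A (.D (.n 249) 4998) (.M (.D (.n 567) 2498) .v0)) (.M (.D (.n 535) 4998) (.P .v0))) (.M (.D (.n 825) 9998) .v1)) (.M (.D (.n 325) 9998) (.P .v1))) (.M (.D (.n 377) 9998) (.M .v0 .v1))) (.M (.D (.n 535) 4998) (.M (.P .v0) .v1))) (.M (.D (.n 1885) 9998) (.M .v0 (.P .v1)))) (.A (.A (.A (.D (.n 3335) 9998) (.M (.D (.n 1679) 9998) .v1)) (.M (.D (.n 251) 2498) (.P .v1))) (.M (.D (.n 151) 1248) (.Q .v1)))) (.D (.n 7477) 9998)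
    [.v0, (.S .o .v0), .v1, (.S .o .v1)]
    ⟨h1, Pool.Agent.Helper83.Cert.sn h2, h3, Pool.Agent.Helper83.Cert.sn h4, trivial⟩
    9 9 0x30c4000000000000000000002fd10c1100000000000000000000069ac10440000000000000000000003080c408000000000000000000019080210200000000000000000000857d1010800000000000000000002c9e010420000000000000000000000010010800000000000000000000000c000200000000000000000000006a 0 0x0 (by decide +kernel)

theorem r_tx  :
    ∀ w c : ℝ, 0 ≤ w → w ≤ 1 → 0 ≤ c → c ≤ 1 →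
    Brp w c + fp c ≤ 7479 / 10000 := by
  intro w c h1 h2 h3 h4
  exact finE (yv_nonneg h1 h3 (le_refl 0) (le_refl 0) (le_refl 0) (le_refl 0) (le_refl 0) (le_refl 0) (le_refl 0)) (.A (.S (.S (.A (.S (.A (.A (.A (.A (.D (.n 37) 2498) (.M (.D (.n 1469) 4998) .v0)) (.M (.D (.n 941) 9998) (.P .v0))) (.M (.D (.n 65) 1998) (.Q .v0))) (.M (.D (.n 117) 4998) .v1)) (.M (.D (.n 107) 4998) (.P .v1))) (.M (.D (.n 1089) 9998) (.M .v0 .v1))) (.M (.D (.n 55) 498) (.M (.P .v0) .v1))) (.M (.D (.n 1717) 4998) (.M .v0 (.P .v1)))) (.A (.A (.A (.D (.n 21) 9998) (.M (.D (.n 709) 9998) .v1)) (.M (.D (.n 527) 2498) (.P .v1))) (.M (.D (.n 305) 9998) (.Q .v1)))) (.D (.n 7477) 9998)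
    [.v0, (.S .o .v0), .v1, (.S .o .v1)]
    ⟨h1, Pool.Agent.Helper83.Cert.sn h2, h3, Pool.Agent.Helper83.Cert.sn h4, trivial⟩
    9 9 0x4104000000000000000000000bb91030c00000000000000000000011800c30000000000000000000018b50c40800000000000000000002192c21020000000000000000000088331010800000000000000000002d2e81042000000000000000000000d170010800000000000000000000159c0002000000000000000000001ca8 0 0x0 (by decide +kernel)

theorem mo_r {x y z : ℝ} (x0 : 0 ≤ x) (x1 : x ≤ 3 / 5) (y0 : 0 ≤ y) (y1 : y ≤ 3 / 5)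
    (z0 : 0 ≤ z) (z1 : z ≤ 3 / 5) (h : x + y + z ≤ 9 / 10) :
    ModesC (np x) (ns z) (kps x z) x z (Wr0 x z) (Wr x z) 0 (gg x y z) 0
      (fun _ _ _ _ _ => True) flA fr fp fs Brp Brs Bps Bsp := by
  have g0 : x + z ≤ 9 / 10 := by linarith
  have hg : 7479 / 10000 ≤ gg x y z := by
    unfold gg
    linarith
  have hg2 : gg x 0 z ≤ gg x y z := by
    unfold gg
    linarith
  refine ⟨fun w A B c => ?_, fun w A B c => ?_, fun w A B c A1 => ?_, fun w A B c B1 => ?_,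
    fun w A B t c A1 t0 t1 => ?_, fun w A B t c B1 t0 t1 => ?_, fun w A B t c t0 t1 => ?_,
    fun w A B t c t0 t1 => ?_⟩
  · exact (r_one_bd x0 x1 z0 z1 g0 c).mono (by linarith)
  · have e := r_top w c.w0.le c.w1
    exact (r_one_bd x0 x1 z0 z1 g0 c).mono (by linarith)
  · have e := r_ty w (1 - A) c.w0.le c.w1 (by linarith) (by linarith [c.A0])
    exact (r_cpy_bd x0 x1 z0 z1 g0 c A1 (by linarith : (0 : ℝ) ≤ 1 - A) le_rfl).mono (by linarith)
  · have e := r_tx w (1 - B) c.w0.le c.w1 (by linarith) (by linarith [c.B0])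
    exact (r_cpx_bd x0 x1 z0 z1 g0 c B1 (by linarith : (0 : ℝ) ≤ 1 - B) le_rfl).mono (by linarith)
  · exact (r_chy_bd x0 x1 z0 z1 g0 c A1 (by linarith) t0 t1).mono (by linarith)
  · exact (r_chx_bd x0 x1 z0 z1 g0 c (by linarith) B1 t0 t1).mono (by linarith)
  · exact (r_cpy_bd x0 x1 z0 z1 g0 c (by linarith) t0 t1).mono (by linarith)
  · exact (r_cpx_bd x0 x1 z0 z1 g0 c (by linarith) t0 t1).mono (by linarith)


end Pool.Agent.Helper70.OS
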