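import Pool.Agent.Helper70.OS.Fin
import Pool.Agent.Helper78.OD.BsOf

/-!
# The columns `p` and `r` of the case `OL1Bs`
-/

set_option autoImplicit false

namespace Pool.Agent.Helper70.OS

theorem hmp : Pool.Agent.Helper78.OD.HMp := fun _ _ _ x0 x1 y0 y1 z0 z1 h =>
  mo_p_sw x0 x1.le y0 y1.le z0 z1.le h.le

theorem hmr : Pool.Agent.Helper78.OD.HMr := fun _ _ _ x0 x1 y0 y1 z0 z1 h =>
  mo_r x0 x1.le y0 y1.le z0 z1.le h.le

end Pool.Agent.Helper70.OS
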