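import Pool.Agent.Helper19.TS.BsNum
import Pool.Agent.Helper70.OL.Small
import Pool.Agent.Helper78.TS.PieceC
import Pool.Agent.Helper47.FC.Fin
import Pool.Agent.Helper83.Cert.RE

/-!
# Side conditions
-/

set_option autoImplicit false
set_option maxRecDepth 100000
set_option linter.all false

namespace Pool.Agent.Helper70.OS

open Pool.Agent.Helper83.Cert (finE)

open Pool.Agent.Helper83.Cert Pool.Agent.Helper47.FC Pool.Agent.Helper74.TS Pool.Agent.Helper83.TS Pool.Agent.Helper36.CK Pool.Agent.Helper36.TS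
open Pool.Agent.Helper11.TS.OL1Bs Pool.Agent.Helper19.TS.Bs Pool.Agent.Helper78.TS Pool.Agent.Helper70.OL

theorem p_k0 {x y : ℝ} (x0 : 0 ≤ x) (x1 : x ≤ 3 / 5) (y0 : 0 ≤ y) (y1 : y ≤ 3 / 5) (g0 : x + y ≤ 9 / 10) :
    0 ≤ krs y x := by
  exact finE (yv_nonneg x0 y0 (le_refl 0) (le_refl 0) (le_refl 0) (le_refl 0) (le_refl 0) (le_refl 0) (le_refl 0)) .z (.A (.S (.S (.D (.n 961) 1998) (.M (.D (.n 5785) 9998) .v1)) (.M (.D (.n 595) 998) .v0)) (.M (.D (.n 9627) 9998) (.M .v1 .v0)))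
    [.v0, .v1, (.S (.D (.n 1) 3) .v0), (.S (.D (.n 1) 3) .v1), (.S (.D (.n 7) 8) (.A .v0 .v1))]
    ⟨x0, y0, Pool.Agent.Helper83.Cert.sn x1, Pool.Agent.Helper83.Cert.sn y1, Pool.Agent.Helper83.Cert.sn g0, trivial⟩
    999999 9 0x5145000000000000000000000021082140000000000000000000068b00085000000000000000000005208000140000000000000000003c1ea02103000000000000000000000a780040c00000000000000005bd43a4010430000000000000000000034580010c00000000000000000002cec000030000000000000000022e3e28 0 0x0 (by decide +kernel)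

theorem p_sy4 {x y : ℝ} (x0 : 0 ≤ x) (x1 : x ≤ 3 / 5) (y0 : 0 ≤ y) (y1 : y ≤ 3 / 5) (g0 : x + y ≤ 9 / 10) :
    1 / 4 ≤ nr y - krs y x := by
  exact finE (yv_nonneg x0 y0 (le_refl 0) (le_refl 0) (le_refl 0) (le_refl 0) (le_refl 0) (le_refl 0) (le_refl 0)) (.D .o 2) (.S (.S (.S (.D (.n 9029) 9998) (.M (.D (.n 234) 623) .v1)) (.M (.D .o 18) (.P .v1))) (.A (.S (.S (.D (.n 961) 1998) (.M (.D (.n 5785) 9998) .v1)) (.M (.D (.n 595) 998) .v0)) (.M (.D (.n 9627) 9998) (.M .v1 .v0))))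
    [.v0, .v1, (.S (.D (.n 1) 3) .v0), (.S (.D (.n 1) 3) .v1), (.S (.D (.n 7) 8) (.A .v0 .v1))]
    ⟨x0, y0, Pool.Agent.Helper83.Cert.sn x1, Pool.Agent.Helper83.Cert.sn y1, Pool.Agent.Helper83.Cert.sn g0, trivial⟩
    49999 9 0x142000000000000000000469d8a104080000000000000000018f6720508200000000000000000170e73d08208000000000000000012a2c148104100000000000000000e68f4da10504000000000000000001271dd4114100000000000000000170e73d00504000000000000000001babb9c00010000000000000000061e7cb4 0 0x0 (by decide +kernel)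

theorem p_sy3 {x y : ℝ} (x0 : 0 ≤ x) (x1 : x ≤ 3 / 5) (y0 : 0 ≤ y) (y1 : y ≤ 3 / 5) (g0 : x + y ≤ 9 / 10) (g1 : 3 / 10 ≤ y) :
    1 / 3 ≤ nr y - krs y x := by
  exact finE (yv_nonneg x0 y0 (le_refl 0) (le_refl 0) (le_refl 0) (le_refl 0) (le_refl 0) (le_refl 0) (le_refl 0)) (.D .o 1) (.S (.S (.S (.D (.n 9029) 9998) (.M (.D (.n 234) 623) .v1)) (.M (.D .o 18) (.P .v1))) (.A (.S (.S (.D (.n 961) 1998) (.M (.D (.n 5785) 9998) .v1)) (.M (.D (.n 595) 998) .v0)) (.M (.D (.n 9627) 9998) (.M .v1 .v0))))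
    [.v0, .v1, (.S (.D (.n 1) 3) .v0), (.S (.D (.n 1) 3) .v1), (.S (.D (.n 7) 8) (.A .v0 .v1)), (.S .v1 (.D (.n 1) 8))]
    ⟨x0, y0, Pool.Agent.Helper83.Cert.sn x1, Pool.Agent.Helper83.Cert.sn y1, Pool.Agent.Helper83.Cert.sn g0, Pool.Agent.Helper83.Cert.sn g1, trivial⟩
    9999 9 0x146000000000000000000024a3b102180000000000000000000000f0308600000000000000000000003c00018000000000000000001024b9001410000000000000000003442cb0040400000000000000000b6d022840410000000000000000000002580c10400000000000000000000096000410000000000000000020a8226 0 0x0 (by decide +kernel)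

theorem p_sy2 {x y : ℝ} (x0 : 0 ≤ x) (x1 : x ≤ 3 / 5) (y0 : 0 ≤ y) (y1 : y ≤ 3 / 5) (g0 : x + y ≤ 9 / 10) (g1 : y ≤ 7 / 20) :
    (1 - y) ^ 2 / 4 + 169 / 1600 ≤ nr y - krs y x := by
  exact finE (yv_nonneg x0 y0 (le_refl 0) (le_refl 0) (le_refl 0) (le_refl 0) (le_refl 0) (le_refl 0) (le_refl 0)) (.A (.D (.P (.S .o .v1)) 2) (.D (.n 167) 1598)) (.S (.S (.S (.D (.n 9029) 9998) (.M (.D (.n 234) 623) .v1)) (.M (.D .o 18) (.P .v1))) (.A (.S (.S (.D (.n 961) 1998) (.M (.D (.n 5785) 9998) .v1)) (.M (.D (.n 595) 998) .v0)) (.M (.D (.n 9627) 9998) (.M .v1 .v0))))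
    [.v0, .v1, (.S (.D (.n 1) 3) .v0), (.S (.D (.n 1) 3) .v1), (.S (.D (.n 7) 8) (.A .v0 .v1)), (.S (.D (.n 5) 18) .v1)]
    ⟨x0, y0, Pool.Agent.Helper83.Cert.sn x1, Pool.Agent.Helper83.Cert.sn y1, Pool.Agent.Helper83.Cert.sn g0, Pool.Agent.Helper83.Cert.sn g1, trivial⟩
    12499 9 0x1420000000000000000018d792f14208000000000000000002ed430420820000000000000000075114020000800000000000000001bae86c810410000000000000000075114021050400000000000000000095d8a41141000000000000000000bb50c100504000000000000000000e0d3c8000100000000000000000bdd5922 0 0x0 (by decide +kernel)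

theorem p_sy {x y : ℝ} (x0 : 0 ≤ x) (x1 : x ≤ 3 / 5) (y0 : 0 ≤ y) (y1 : y ≤ 3 / 5)
    (g0 : x + y ≤ 9 / 10) : Side (nr y - krs y x) y :=
  ⟨p_sy4 x0 x1 y0 y1 g0, fun h => p_sy3 x0 x1 y0 y1 g0 h, fun h => p_sy2 x0 x1 y0 y1 g0 h⟩

theorem p_kx {x y : ℝ} (x0 : 0 ≤ x) (x1 : x ≤ 3 / 5) (y0 : 0 ≤ y) (y1 : y ≤ 3 / 5) (g0 : x + y ≤ 9 / 10) :
    0 ≤ ns x - krs y x := by
  exact finE (yv_nonneg x0 y0 (le_refl 0) (le_refl 0) (le_refl 0) (le_refl 0) (le_refl 0) (le_refl 0) (le_refl 0)) .z (.S (.S (.S (.D (.n 745) 998) (.M (.D (.n 789) 9998) .v0)) (.M (.D (.n 2051) 4998) (.P .v0))) (.A (.S (.S (.D (.n 961) 1998) (.M (.D (.n 5785) 9998) .v1)) (.M (.D (.n 595) 998) .v0)) (.M (.D (.n 9627) 9998) (.M .v1 .v0))))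
    [.v0, .v1, (.S (.D (.n 1) 3) .v0), (.S (.D (.n 1) 3) .v1), (.S (.D (.n 7) 8) (.A .v0 .v1))]
    ⟨x0, y0, Pool.Agent.Helper83.Cert.sn x1, Pool.Agent.Helper83.Cert.sn y1, Pool.Agent.Helper83.Cert.sn g0, trivial⟩
    49999 9 0x1420000000000000000009b2bd414208000000000000000002b19da42082000000000000000006bbf6920000800000000000000002f2a0dd030c10000000000000000000eb4e804104000000000000000015312fa84141000000000000000000227ab104504000000000000000002b19da4014100000000000000000140e056 0 0x0 (by decide +kernel)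

theorem p_sxw {x y : ℝ} (x0 : 0 ≤ x) (x1 : x ≤ 3 / 5) (y0 : 0 ≤ y) (y1 : y ≤ 3 / 5) (g0 : x + y ≤ 9 / 10) :
    53 / 500 + 6 / 25 * x ≤ ns x - krs y x := by
  exact finE (yv_nonneg x0 y0 (le_refl 0) (le_refl 0) (le_refl 0) (le_refl 0) (le_refl 0) (le_refl 0) (le_refl 0)) (.A (.D (.n 51) 498) (.M (.D (.n 4) 23) .v0)) (.S (.S (.S (.D (.n 745) 998) (.M (.D (.n 789) 9998) .v0)) (.M (.D (.n 2051) 4998) (.P .v0))) (.A (.S (.S (.D (.n 961) 1998) (.M (.D (.n 5785) 9998) .v1)) (.M (.D (.n 595) 998) .v0)) (.M (.D (.n 9627) 9998) (.M .v1 .v0))))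
    [.v0, .v1, (.S (.D (.n 1) 3) .v0), (.S (.D (.n 1) 3) .v1), (.S (.D (.n 7) 8) (.A .v0 .v1))]
    ⟨x0, y0, Pool.Agent.Helper83.Cert.sn x1, Pool.Agent.Helper83.Cert.sn y1, Pool.Agent.Helper83.Cert.sn g0, trivial⟩
    9999 7 0xc10000000000000000005d3fa40450400000000000000000000019001410000000000000000001007fc00508000000000000000000822b8c00c2000000000000000000c4b59a142080000000000000000000001900082000000000000000001456572 0 0x0 (by decide +kernel)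

theorem p_sx {x y : ℝ} (x0 : 0 ≤ x) (x1 : x ≤ 3 / 5) (y0 : 0 ≤ y) (y1 : y ≤ 3 / 5)
    (g0 : x + y ≤ 9 / 10) : SideW (ns x - krs y x) x := p_sxw x0 x1 y0 y1 g0

theorem p_s0 {x y : ℝ} (x0 : 0 ≤ x) (x1 : x ≤ 3 / 5) (y0 : 0 ≤ y) (y1 : y ≤ 3 / 5)
    (g0 : x + y ≤ 9 / 10) : S0 (ns x) (nr y) (krs y x) x y :=
  ⟨p_k0 x0 x1 y0 y1 g0, p_kx x0 x1 y0 y1 g0,
    le_trans (by norm_num) (p_sy4 x0 x1 y0 y1 g0), x0, x1, y0, y1⟩

theorem r_k0 {x y : ℝ} (x0 : 0 ≤ x) (x1 : x ≤ 3 / 5) (y0 : 0 ≤ y) (y1 : y ≤ 3 / 5) (g0 : x + y ≤ 9 / 10) :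
    0 ≤ kps x y := by
  exact finE (yv_nonneg x0 y0 (le_refl 0) (le_refl 0) (le_refl 0) (le_refl 0) (le_refl 0) (le_refl 0) (le_refl 0)) .z (.A (.S (.S (.D (.n 721) 2498) (.M (.D (.n 232) 623) .v0)) (.M (.D (.n 515) 1998) .v1)) (.M (.D (.n 5185) 9998) (.M .v0 .v1)))
    [.v0, .v1, (.S (.D (.n 1) 3) .v0), (.S (.D (.n 1) 3) .v1), (.S (.D (.n 7) 8) (.A .v0 .v1))]
    ⟨x0, y0, Pool.Agent.Helper83.Cert.sn x1, Pool.Agent.Helper83.Cert.sn y1, Pool.Agent.Helper83.Cert.sn g0, trivial⟩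
    499999 9 0x210200000000000000000000271000408000000000000000006fbc330204200000000000000000e89b3dc0410800000000000000007450ac2051430000000000000000000771e70040c000000000000000011c0e1b0304300000000000000000094de3c0010c00000000000000000df6e8900003000000000000000006a57d40 0 0x0 (by decide +kernel)

theorem r_sy4 {x y : ℝ} (x0 : 0 ≤ x) (x1 : x ≤ 3 / 5) (y0 : 0 ≤ y) (y1 : y ≤ 3 / 5) (g0 : x + y ≤ 9 / 10) :
    1 / 4 ≤ ns y - kps x y := by
  exact finE (yv_nonneg x0 y0 (le_refl 0) (le_refl 0) (le_refl 0) (le_refl 0) (le_refl 0) (le_refl 0) (le_refl 0)) (.D .o 2) (.S (.S (.S (.D (.n 745) 998) (.M (.D (.n 789) 9998) .v1)) (.M (.D (.n 2051) 4998) (.P .v1))) (.A (.S (.S (.D (.n 721) 2498) (.M (.D (.n 232) 623) .v0)) (.M (.D (.n 515) 1998) .v1)) (.M (.D (.n 5185) 9998) (.M .v0 .v1))))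
    [.v0, .v1, (.S (.D (.n 1) 3) .v0), (.S (.D (.n 1) 3) .v1), (.S (.D (.n 7) 8) (.A .v0 .v1))]
    ⟨x0, y0, Pool.Agent.Helper83.Cert.sn x1, Pool.Agent.Helper83.Cert.sn y1, Pool.Agent.Helper83.Cert.sn g0, trivial⟩
    9999 9 0x410400000000000000000000000800210000000000000000001f541400004000000000000000000147080102040000000000000000020fa8781041000000000000000002938eae1050400000000000000000034c3bc114100000000000000000041f50f005040000000000000000004f28900001000000000000000000250198 0 0x0 (by decide +kernel)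

theorem r_sy3 {x y : ℝ} (x0 : 0 ≤ x) (x1 : x ≤ 3 / 5) (y0 : 0 ≤ y) (y1 : y ≤ 3 / 5) (g0 : x + y ≤ 9 / 10) (g1 : 3 / 10 ≤ y) :
    1 / 3 ≤ ns y - kps x y := by
  exact finE (yv_nonneg x0 y0 (le_refl 0) (le_refl 0) (le_refl 0) (le_refl 0) (le_refl 0) (le_refl 0) (le_refl 0)) (.D .o 1) (.S (.S (.S (.D (.n 745) 998) (.M (.D (.n 789) 9998) .v1)) (.M (.D (.n 2051) 4998) (.P .v1))) (.A (.S (.S (.D (.n 721) 2498) (.M (.D (.n 232) 623) .v0)) (.M (.D (.n 515) 1998) .v1)) (.M (.D (.n 5185) 9998) (.M .v0 .v1))))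
    [.v0, .v1, (.S (.D (.n 1) 3) .v0), (.S (.D (.n 1) 3) .v1), (.S (.D (.n 7) 8) (.A .v0 .v1)), (.S .v1 (.D (.n 1) 8))]
    ⟨x0, y0, Pool.Agent.Helper83.Cert.sn x1, Pool.Agent.Helper83.Cert.sn y1, Pool.Agent.Helper83.Cert.sn g0, Pool.Agent.Helper83.Cert.sn g1, trivial⟩
    9999 9 0x1840000000000000000002597d0082100000000000000000000009600004000000000000000000ae19c8005040000000000000000018180242101000000000000000000000258004040000000000000000046897f840410000000000000000000002580c1040000000000000000000009600041000000000000000003c3a692 0 0x0 (by decide +kernel)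

theorem r_sy2 {x y : ℝ} (x0 : 0 ≤ x) (x1 : x ≤ 3 / 5) (y0 : 0 ≤ y) (y1 : y ≤ 3 / 5) (g0 : x + y ≤ 9 / 10) (g1 : y ≤ 7 / 20) :
    (1 - y) ^ 2 / 4 + 169 / 1600 ≤ ns y - kps x y := by
  exact finE (yv_nonneg x0 y0 (le_refl 0) (le_refl 0) (le_refl 0) (le_refl 0) (le_refl 0) (le_refl 0) (le_refl 0)) (.A (.D (.P (.S .o .v1)) 2) (.D (.n 167) 1598)) (.S (.S (.S (.D (.n 745) 998) (.M (.D (.n 789) 9998) .v1)) (.M (.D (.n 2051) 4998) (.P .v1))) (.A (.S (.S (.D (.n 721) 2498) (.M (.D (.n 232) 623) .v0)) (.M (.D (.n 515) 1998) .v1)) (.M (.D (.n 5185) 9998) (.M .v0 .v1))))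
    [.v0, .v1, (.S (.D (.n 1) 3) .v0), (.S (.D (.n 1) 3) .v1), (.S (.D (.n 7) 8) (.A .v0 .v1)), (.S (.D (.n 5) 18) .v1)]
    ⟨x0, y0, Pool.Agent.Helper83.Cert.sn x1, Pool.Agent.Helper83.Cert.sn y1, Pool.Agent.Helper83.Cert.sn g0, Pool.Agent.Helper83.Cert.sn g1, trivial⟩
    1249 9 0x1420000000000000000003997b5142080000000000000000001ff6f820820000000000000000004fe7780020400000000000000000510183c10410000000000000000004fe77810504000000000000000000066470114100000000000000000007fdbe005040000000000000000000998240001000000000000000000dce6c8 0 0x0 (by decide +kernel)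

theorem r_sy {x y : ℝ} (x0 : 0 ≤ x) (x1 : x ≤ 3 / 5) (y0 : 0 ≤ y) (y1 : y ≤ 3 / 5)
    (g0 : x + y ≤ 9 / 10) : Side (ns y - kps x y) y :=
  ⟨r_sy4 x0 x1 y0 y1 g0, fun h => r_sy3 x0 x1 y0 y1 g0 h, fun h => r_sy2 x0 x1 y0 y1 g0 h⟩

theorem r_kx {x y : ℝ} (x0 : 0 ≤ x) (x1 : x ≤ 3 / 5) (y0 : 0 ≤ y) (y1 : y ≤ 3 / 5) (g0 : x + y ≤ 9 / 10) :
    0 ≤ np x - kps x y := by
  exact finE (yv_nonneg x0 y0 (le_refl 0) (le_refl 0) (le_refl 0) (le_refl 0) (le_refl 0) (le_refl 0) (le_refl 0)) .z (.S (.S (.A (.D (.n 479) 998) (.M (.D (.n 7) 398) .v0)) (.M (.D (.n 3481) 9998) (.P .v0))) (.A (.S (.S (.D (.n 721) 2498) (.M (.D (.n 232) 623) .v0)) (.M (.D (.n 515) 1998) .v1)) (.M (.D (.n 5185) 9998) (.M .v0 .v1))))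
    [.v0, .v1, (.S (.D (.n 1) 3) .v0), (.S (.D (.n 1) 3) .v1), (.S (.D (.n 7) 8) (.A .v0 .v1))]
    ⟨x0, y0, Pool.Agent.Helper83.Cert.sn x1, Pool.Agent.Helper83.Cert.sn y1, Pool.Agent.Helper83.Cert.sn g0, trivial⟩
    49999 9 0x1420000000000000000002b57a514208000000000000000000c0993c2082000000000000000001e16b8e00008000000000000000018b82a281041000000000000000001e16b8e1050400000000000000000026837c114100000000000000000030264f0050400000000000000000460c1700001000000000000000000f65cf2 0 0x0 (by decide +kernel)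

theorem r_sxw {x y : ℝ} (x0 : 0 ≤ x) (x1 : x ≤ 3 / 5) (y0 : 0 ≤ y) (y1 : y ≤ 3 / 5) (g0 : x + y ≤ 9 / 10) :
    53 / 500 + 6 / 25 * x ≤ np x - kps x y := by
  exact finE (yv_nonneg x0 y0 (le_refl 0) (le_refl 0) (le_refl 0) (le_refl 0) (le_refl 0) (le_refl 0) (le_refl 0)) (.A (.D (.n 51) 498) (.M (.D (.n 4) 23) .v0)) (.S (.S (.A (.D (.n 479) 998) (.M (.D (.n 7) 398) .v0)) (.M (.D (.n 3481) 9998) (.P .v0))) (.A (.S (.S (.D (.n 721) 2498) (.M (.D (.n 232) 623) .v0)) (.M (.D (.n 515) 1998) .v1)) (.M (.D (.n 5185) 9998) (.M .v0 .v1))))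
    [.v0, .v1, (.S (.D (.n 1) 3) .v0), (.S (.D (.n 1) 3) .v1), (.S (.D (.n 7) 8) (.A .v0 .v1))]
    ⟨x0, y0, Pool.Agent.Helper83.Cert.sn x1, Pool.Agent.Helper83.Cert.sn y1, Pool.Agent.Helper83.Cert.sn g0, trivial⟩
    4999 7 0x8300000000000000000041bbaa0010c0000000000000000009ef20800030000000000000000000bf952082140000000000000000000000c8008500000000000000000000005f041140000000000000000000000c8004500000000000000000006b4da 0 0x0 (by decide +kernel)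

theorem r_sx {x y : ℝ} (x0 : 0 ≤ x) (x1 : x ≤ 3 / 5) (y0 : 0 ≤ y) (y1 : y ≤ 3 / 5)
    (g0 : x + y ≤ 9 / 10) : SideW (np x - kps x y) x := r_sxw x0 x1 y0 y1 g0

theorem r_s0 {x y : ℝ} (x0 : 0 ≤ x) (x1 : x ≤ 3 / 5) (y0 : 0 ≤ y) (y1 : y ≤ 3 / 5)
    (g0 : x + y ≤ 9 / 10) : S0 (np x) (ns y) (kps x y) x y :=
  ⟨r_k0 x0 x1 y0 y1 g0, r_kx x0 x1 y0 y1 g0,
    le_trans (by norm_num) (r_sy4 x0 x1 y0 y1 g0), x0, x1, y0, y1⟩


end Pool.Agent.Helper70.OS
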